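import Mathlib

/-!
# Uniform bounds for inverses in the Wiener algebra of the disc

For `f` analytic in the unit disc with Taylor coefficients `a n`, `∑ |a n| = 1` and `|f| ≥ δ`,
let `M f = ∑ |b n|`, `b n` the Taylor coefficients of `1 / f`, and `C δ = sup M f`.
We show `C δ = 1 / (2 δ - 1)` for `1/2 < δ ≤ 1` and `C δ = ∞` for `0 < δ ≤ 1/2`;
in particular the critical constant is `δ₀ = 1/2`.
-/

set_option autoImplicit false

open Polynomial Finset
open scoped ENNReal Topology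

namespace Pool.Agent.Results.MP_de3d06_an.NormControl

noncomputable section

/-- the `n`-th Taylor coefficient of `f` at the origin -/
def coef (f : ℂ → ℂ) (n : ℕ) : ℂ := iteratedDeriv n f 0 / (n.factorial : ℂ)

/-- the norm `‖f‖_W = ∑ |a n|`, a number in `[0, ∞]` -/
def wNorm (f : ℂ → ℂ) : ℝ≥0∞ := ∑' n : ℕ, ENNReal.ofReal ‖coef f n‖

/-- the family `F_δ`: the functions `f` analytic in the unit disc with `‖f‖_W = 1` and
`|f z| ≥ δ` in the disc -/
def Fam (δ : ℝ) : Set (ℂ → ℂ) :=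
  {f | DifferentiableOn ℂ f (Metric.ball 0 1) ∧ wNorm f = 1 ∧
    ∀ z ∈ Metric.ball (0 : ℂ) 1, δ ≤ ‖f z‖}

/-- `C δ = sup M f` over `f ∈ F_δ`, where `M f = ‖1 / f‖_W` -/
def C (δ : ℝ) : ℝ≥0∞ := ⨆ f ∈ Fam δ, wNorm (fun z => (f z)⁻¹)

/-! ### the Cauchy product -/

lemma conv {f : ℂ → ℂ} (hf : DifferentiableOn ℂ f (Metric.ball 0 1))
    (h0 : ∀ z ∈ Metric.ball (0 : ℂ) 1, f z ≠ 0) (n : ℕ) :
    ∑ i ∈ range (n + 1), coef f i * coef (fun z => (f z)⁻¹) (n - i) = if n = 0 then 1 else 0 := by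
  have hmem : Metric.ball (0 : ℂ) 1 ∈ 𝓝 (0 : ℂ) := Metric.ball_mem_nhds 0 one_pos
  have hg : DifferentiableOn ℂ (fun z => (f z)⁻¹) (Metric.ball 0 1) := hf.inv h0
  have hfa : ContDiffAt ℂ n f 0 := (hf.analyticAt hmem).contDiffAt
  have hga : ContDiffAt ℂ n (fun z => (f z)⁻¹) 0 := (hg.analyticAt hmem).contDiffAt
  have h1 := iteratedDeriv_fun_mul hfa hga
  have h2 : (fun z => f z * (f z)⁻¹) =ᶠ[𝓝 0] fun _ => (1 : ℂ) := by
    filter_upwards [hmem] with z hz
    exact mul_inv_cancel₀ (h0 z hz)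
  rw [h2.iteratedDeriv_eq n, iteratedDeriv_const] at h1
  have hn : ((n.factorial : ℕ) : ℂ) ≠ 0 := by exact_mod_cast n.factorial_ne_zero
  have key : (n.factorial : ℂ) * ∑ i ∈ range (n + 1), coef f i * coef (fun z => (f z)⁻¹) (n - i)
      = if n = 0 then 1 else 0 := by
    rw [h1, Finset.mul_sum]
    refine Finset.sum_congr rfl fun i hi => ?_
    have hi' : i ≤ n := Nat.lt_succ_iff.1 (Finset.mem_range.1 hi)
    have hc : ((n.choose i : ℕ) : ℂ) * (i.factorial : ℂ) * ((n - i).factorial : ℂ)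
        = (n.factorial : ℂ) := by exact_mod_cast Nat.choose_mul_factorial_mul_factorial hi'
    have hi0 : ((i.factorial : ℕ) : ℂ) ≠ 0 := by exact_mod_cast i.factorial_ne_zero
    have hj0 : (((n - i).factorial : ℕ) : ℂ) ≠ 0 := by exact_mod_cast (n - i).factorial_ne_zero
    rw [← hc]
    unfold coef
    field_simp
  by_cases h : n = 0
  · subst h
    simpa using key
  · rw [if_neg h] at key ⊢
    exact (mul_eq_zero.1 key).resolve_left hn

/-! ### the upper bound -/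

lemma sum_conv_le (u v : ℕ → ℝ) (hu : ∀ n, 0 ≤ u n) (hv : ∀ n, 0 ≤ v n) (N : ℕ) :
    ∑ n ∈ range N, ∑ i ∈ range n, u (i + 1) * v (n - (i + 1)) ≤
      (∑ i ∈ range N, u (i + 1)) * ∑ j ∈ range N, v j := by
  rw [Finset.sum_sigma', Finset.sum_mul_sum, ← Finset.sum_product']
  have hinj : Set.InjOn (fun x : (Σ _ : ℕ, ℕ) => (x.2, x.1 - (x.2 + 1)))
      ((range N).sigma fun n => range n : Finset (Σ _ : ℕ, ℕ)) := by
    rintro ⟨n, i⟩ h ⟨m, j⟩ h' he
    simp only [Finset.coe_sigma, Set.mem_sigma_iff, Finset.mem_coe, Finset.mem_range] at h h'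
    simp only [Prod.mk.injEq] at he
    obtain ⟨rfl, he⟩ := he
    have : n = m := by omega
    subst this
    rfl
  have himg := Finset.sum_image (s := (range N).sigma fun n => range n)
    (g := fun x : (Σ _ : ℕ, ℕ) => (x.2, x.1 - (x.2 + 1)))
    (f := fun y : ℕ × ℕ => u (y.1 + 1) * v y.2) hinj
  rw [← himg]
  refine Finset.sum_le_sum_of_subset_of_nonneg ?_ ?_
  · intro y hy
    rw [Finset.mem_image] at hy
    obtain ⟨⟨n, i⟩, h, rfl⟩ := hy
    simp only [Finset.mem_sigma, Finset.mem_range] at h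
    simp only [Finset.mem_product, Finset.mem_range]
    omega
  · intro y _ _
    exact mul_nonneg (hu _) (hv _)

lemma upper {a b : ℕ → ℂ} (hab : ∀ n, ∑ i ∈ range (n + 1), a i * b (n - i) =
      if n = 0 then 1 else 0)
    (ha : ∑' n, ENNReal.ofReal ‖a n‖ = 1) (h0 : 1 / 2 < ‖a 0‖) :
    ∑' n, ENNReal.ofReal ‖b n‖ ≤ ENNReal.ofReal (1 / (2 * ‖a 0‖ - 1)) := by
  have hsum : ∀ N, ‖a 0‖ + ∑ i ∈ range N, ‖a (i + 1)‖ ≤ 1 := by
    intro N
    have h1 : ∑ i ∈ range (N + 1), ENNReal.ofReal ‖a i‖ ≤ 1 := ha ▸ ENNReal.sum_le_tsum _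
    rw [← ENNReal.ofReal_sum_of_nonneg (fun i _ => norm_nonneg _),
      Finset.sum_range_succ', add_comm] at h1
    exact (ENNReal.ofReal_le_one).1 h1
  have hpos : 0 < 2 * ‖a 0‖ - 1 := by linarith
  have hb : ∀ N, ∑ n ∈ range N, ‖b n‖ ≤ 1 / (2 * ‖a 0‖ - 1) := by
    intro N
    have h1 : ∀ n, ‖a 0‖ * ‖b n‖ ≤ (if n = 0 then 1 else 0) +
        ∑ i ∈ range n, ‖a (i + 1)‖ * ‖b (n - (i + 1))‖ := by
      intro n
      have h2 := hab n
      rw [Finset.sum_range_succ'] at h2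
      have h3 : a 0 * b n = (if n = 0 then 1 else 0) -
          ∑ i ∈ range n, a (i + 1) * b (n - (i + 1)) := by
        rw [← h2]
        simp
      rw [← norm_mul, h3]
      refine (norm_sub_le _ _).trans (add_le_add ?_ ?_)
      · by_cases hn : n = 0 <;> simp [hn]
      · refine (norm_sum_le _ _).trans (Finset.sum_le_sum fun i _ => ?_)
        rw [norm_mul]
    have h4 : ‖a 0‖ * ∑ n ∈ range N, ‖b n‖ ≤ 1 +
        (∑ i ∈ range N, ‖a (i + 1)‖) * ∑ j ∈ range N, ‖b j‖ := by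
      rw [Finset.mul_sum]
      refine (Finset.sum_le_sum fun n _ => h1 n).trans ?_
      rw [Finset.sum_add_distrib]
      refine add_le_add ?_ (sum_conv_le (fun n => ‖a n‖) (fun n => ‖b n‖)
        (fun _ => norm_nonneg _) (fun _ => norm_nonneg _) N)
      rw [Finset.sum_ite_eq']
      split_ifs <;> norm_num
    have hS : 0 ≤ ∑ n ∈ range N, ‖b n‖ := Finset.sum_nonneg fun _ _ => norm_nonneg _
    have h5 : (∑ i ∈ range N, ‖a (i + 1)‖) * ∑ j ∈ range N, ‖b j‖ ≤
        (1 - ‖a 0‖) * ∑ j ∈ range N, ‖b j‖ :=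
      mul_le_mul_of_nonneg_right (by linarith [hsum N]) hS
    rw [le_div_iff₀ hpos]
    nlinarith
  refine ENNReal.tsum_le_of_sum_range_le fun N => ?_
  rw [← ENNReal.ofReal_sum_of_nonneg (fun i _ => norm_nonneg _)]
  exact ENNReal.ofReal_le_ofReal (hb N)

/-! ### polynomials -/

/-- the sum of the absolute values of the coefficients -/
def nrm (p : ℂ[X]) : ℝ≥0∞ := ∑' n, ENNReal.ofReal ‖p.coeff n‖

lemma nrm_head {p : ℂ[X]} {d : ℕ} (h : ∀ n, d ≤ n → p.coeff n = 0) :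
    nrm p = ∑ n ∈ range d, ENNReal.ofReal ‖p.coeff n‖ := by
  unfold nrm
  rw [tsum_eq_sum (s := range d)]
  intro n hn
  rw [h n (by simpa using hn)]
  simp

lemma nrm_add {p q : ℂ[X]} {d : ℕ} (h : ∀ n, d ≤ n → p.coeff n = 0) :
    nrm (p + q * X ^ d) = nrm p + nrm q := by
  rw [nrm_head h]
  unfold nrm
  have h1 := Summable.sum_add_tsum_nat_add' (k := d)
    (f := fun n => ENNReal.ofReal ‖(p + q * X ^ d).coeff n‖) ENNReal.summable
  rw [← h1]
  refine congrArg₂ (· + ·) ?_ ?_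
  · refine Finset.sum_congr rfl fun n hn => ?_
    rw [coeff_add, coeff_mul_X_pow', if_neg (by simpa using hn), add_zero]
  · refine tsum_congr fun n => ?_
    rw [coeff_add, h (n + d) (by omega), coeff_mul_X_pow, zero_add]

lemma nrm_C_mul (c : ℂ) (p : ℂ[X]) : nrm (Polynomial.C c * p) = ENNReal.ofReal ‖c‖ * nrm p := by
  unfold nrm
  rw [← ENNReal.tsum_mul_left]
  refine tsum_congr fun n => ?_
  rw [coeff_C_mul, norm_mul, ENNReal.ofReal_mul (norm_nonneg _)]

lemma nrm_zero : nrm 0 = 0 := by simp [nrm]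

lemma nrm_C (c : ℂ) : nrm (Polynomial.C c) = ENNReal.ofReal ‖c‖ := by
  rw [nrm_head (d := 1)]
  · simp
  · intro n hn
    rw [coeff_C, if_neg (by omega)]

lemma block {A : ℕ → ℂ[X]} {m : ℕ} (t : ℕ) (h : ∀ i < t, ∀ n, m ≤ n → (A i).coeff n = 0) :
    (∀ n, m * t ≤ n → (∑ i ∈ range t, A i * X ^ (m * i)).coeff n = 0) ∧
      nrm (∑ i ∈ range t, A i * X ^ (m * i)) = ∑ i ∈ range t, nrm (A i) := by
  induction t with
  | zero => simp [nrm_zero]
  | succ t ih =>
    obtain ⟨h1, h2⟩ := ih fun i hi => h i (by omega)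
    constructor
    · intro n hn
      rw [Finset.sum_range_succ, coeff_add, h1 n (by nlinarith), coeff_mul_X_pow', zero_add]
      have : m * t + m ≤ n := by nlinarith
      rw [if_pos (by omega), h t (by omega) _ (by omega)]
    · rw [Finset.sum_range_succ, nrm_add h1, h2, Finset.sum_range_succ]

lemma nrm_expand {p : ℂ[X]} {m : ℕ} (h : ∀ n, m ≤ n → p.coeff n = 0) (N : ℕ) :
    ∀ q : ℂ[X], q.natDegree ≤ N → nrm (p * expand ℂ m q) = nrm p * nrm q := by
  induction N with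
  | zero =>
    intro q hq
    rw [Polynomial.eq_C_of_natDegree_le_zero hq, expand_C, mul_comm p, nrm_C_mul, nrm_C, mul_comm]
  | succ N ih =>
    intro q hq
    have h1 : q = Polynomial.C (q.coeff 0) + divX q * X ^ 1 := by
      rw [pow_one, add_comm]
      exact (divX_mul_X_add q).symm
    have h2 : (divX q).natDegree ≤ N := by
      rw [natDegree_divX_eq_natDegree_tsub_one]
      omega
    have h3 : p * expand ℂ m q = Polynomial.C (q.coeff 0) * p +
        (p * expand ℂ m (divX q)) * X ^ m := by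
      conv_lhs => rw [h1]
      rw [map_add, map_mul, map_pow, expand_C, expand_X]
      ring
    have h4 : nrm q = ENNReal.ofReal ‖q.coeff 0‖ + nrm (divX q) := by
      conv_lhs => rw [h1]
      rw [nrm_add, nrm_C]
      intro n hn
      rw [coeff_C, if_neg (by omega)]
    rw [h3, nrm_add, nrm_C_mul, ih _ h2, h4]
    · ring
    · intro n hn
      rw [coeff_C_mul, h n hn, mul_zero]

lemma nrm_one_add_X_pow (i : ℕ) : nrm ((1 + X) ^ i) = 2 ^ i := by
  rw [nrm_head (d := i + 1)]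
  · have h : ∀ n, ENNReal.ofReal ‖(((1 : ℂ[X]) + X) ^ i).coeff n‖ = ((i.choose n : ℕ) : ℝ≥0∞) := by
      intro n
      rw [coeff_one_add_X_pow, Complex.norm_natCast, ENNReal.ofReal_natCast]
    simp only [h]
    rw [← Nat.cast_sum, Nat.sum_range_choose]
    push_cast
    rfl
  · intro n hn
    rw [coeff_one_add_X_pow, Nat.choose_eq_zero_of_lt (by omega), Nat.cast_zero]

/-- `(1 + X - X^(K+1)) / 3` -/
def P (K : ℕ) : ℂ[X] := Polynomial.C (1 / 3) * ((1 + X) - X ^ (K + 1))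

lemma P_natDegree (K : ℕ) : (P K).natDegree ≤ K + 1 := by
  unfold P
  refine (natDegree_C_mul_le _ _).trans ?_
  compute_degree

lemma nrm_P_pow (K k : ℕ) (hk : k ≤ K) : nrm (P K ^ k) = 1 := by
  have h1 : P K ^ k = Polynomial.C ((1 / 3) ^ k) * ∑ j ∈ range (k + 1),
      (Polynomial.C ((-1) ^ j * (k.choose j : ℂ)) * (1 + X) ^ (k - j)) * X ^ ((K + 1) * j) := by
    unfold P
    rw [mul_pow, sub_eq_neg_add, add_pow, ← Polynomial.C_pow]
    refine congrArg₂ (· * ·) rfl (Finset.sum_congr rfl fun j _ => ?_)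
    rw [neg_pow, ← pow_mul]
    simp only [map_mul, map_pow, map_neg, map_one, map_natCast]
    ring
  rw [h1, nrm_C_mul, (block (k + 1) ?_).2]
  · have h2 : ∀ j, nrm (Polynomial.C ((-1) ^ j * (k.choose j : ℂ)) * (1 + X) ^ (k - j)) =
        1 ^ j * 2 ^ (k - j) * (k.choose j : ℝ≥0∞) := by
      intro j
      rw [nrm_C_mul, nrm_one_add_X_pow, norm_mul, norm_pow, norm_neg, norm_one, one_pow, one_mul,
        one_pow, one_mul, Complex.norm_natCast, ENNReal.ofReal_natCast, mul_comm]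
    simp only [h2]
    rw [← add_pow, norm_pow, ENNReal.ofReal_pow (norm_nonneg _), ← mul_pow]
    have h3 : ENNReal.ofReal ‖(1 / 3 : ℂ)‖ * (1 + 2) = 1 := by
      rw [norm_div, norm_one, Complex.norm_ofNat, one_div, ENNReal.ofReal_inv_of_pos (by norm_num)]
      norm_num
      exact ENNReal.inv_mul_cancel (by norm_num) (by norm_num)
    rw [h3, one_pow]
  · intro j hj n hn
    rw [coeff_C_mul, coeff_one_add_X_pow,
      (Nat.choose_eq_zero_of_lt (by omega) : (k - j).choose n = 0), Nat.cast_zero, mul_zero]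

/-- the products `P(z) P(z^m) P(z^(m^2)) ...` -/
def F (K : ℕ) : ℕ → ℂ[X]
  | 0 => 1
  | s + 1 => P K * expand ℂ (K * (K + 1) + 1) (F K s)

lemma nrm_F_pow (K k s : ℕ) (hk : k ≤ K) : nrm (F K s ^ k) = 1 := by
  induction s with
  | zero =>
    rw [F, one_pow, ← Polynomial.C_1, nrm_C]
    simp
  | succ s ih =>
    rw [F, mul_pow, ← map_pow, nrm_expand (N := (F K s ^ k).natDegree) ?_ _ le_rfl, ih,
      nrm_P_pow K k hk, one_mul]
    intro n hn
    refine coeff_eq_zero_of_natDegree_lt ?_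
    calc (P K ^ k).natDegree ≤ k * (P K).natDegree := natDegree_pow_le
      _ ≤ K * (K + 1) := Nat.mul_le_mul hk (P_natDegree K)
      _ < n := by omega

lemma P_lt (K : ℕ) (z : ℂ) (hz : ‖z‖ ≤ 1) : ‖(P K).eval z‖ < 1 := by
  have h1 : (P K).eval z = (1 / 3) * ((1 + z) - z ^ (K + 1)) := by simp [P]
  rw [h1, norm_mul]
  have h3 : ‖(1 / 3 : ℂ)‖ = 1 / 3 := by
    rw [norm_div, norm_one, Complex.norm_ofNat]
  rw [h3]
  by_cases h : z = 1
  · subst h
    norm_num
  · have h4 : ‖1 + z‖ < 2 := by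
      have h5 : ‖1 + z‖ ^ 2 < 4 := by
        rw [Complex.sq_norm, Complex.normSq_apply]
        have h6 : z.re * z.re + z.im * z.im ≤ 1 := by
          have := Complex.sq_norm z
          rw [Complex.normSq_apply] at this
          nlinarith [norm_nonneg z]
        have h7 : z.re < 1 := by
          by_contra h8
          push Not at h8
          have h9 : z.re = 1 := by nlinarith [mul_self_nonneg z.im]
          have h10 : z.im = 0 := by
            have : z.im * z.im ≤ 0 := by nlinarith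
            nlinarith [mul_self_nonneg z.im, mul_self_eq_zero.1 (le_antisymm this (mul_self_nonneg z.im))]
          exact h (Complex.ext (by simpa using h9) (by simpa using h10))
        simp only [Complex.add_re, Complex.add_im, Complex.one_re, Complex.one_im]
        nlinarith
      nlinarith [norm_nonneg (1 + z)]
    have h5 : ‖(1 + z) - z ^ (K + 1)‖ ≤ ‖1 + z‖ + 1 := by
      refine (norm_sub_le _ _).trans ?_
      rw [norm_pow]
      have := pow_le_one₀ (n := K + 1) (norm_nonneg z) hz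
      linarith
    linarith

lemma exists_rho (K : ℕ) : ∃ ρ : ℝ, 0 ≤ ρ ∧ ρ < 1 ∧ ∀ z : ℂ, ‖z‖ ≤ 1 → ‖(P K).eval z‖ ≤ ρ := by
  obtain ⟨z0, hz0, hmax⟩ := (isCompact_closedBall (0 : ℂ) 1).exists_isMaxOn
    ⟨0, Metric.mem_closedBall_self zero_le_one⟩
    ((P K).continuous.norm.continuousOn)
  refine ⟨‖(P K).eval z0‖, norm_nonneg _, P_lt K z0 (by simpa using hz0), fun z hz => ?_⟩
  exact hmax (by simpa using hz)

lemma F_le (K : ℕ) {ρ : ℝ} (h0 : 0 ≤ ρ) (h : ∀ z : ℂ, ‖z‖ ≤ 1 → ‖(P K).eval z‖ ≤ ρ) (s : ℕ) :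
    ∀ z : ℂ, ‖z‖ ≤ 1 → ‖(F K s).eval z‖ ≤ ρ ^ s := by
  induction s with
  | zero => intro z _; simp [F]
  | succ s ih =>
    intro z hz
    rw [F, eval_mul, expand_eval, norm_mul, pow_succ, mul_comm]
    have hz' : ‖z ^ (K * (K + 1) + 1)‖ ≤ 1 := by
      rw [norm_pow]
      exact pow_le_one₀ (norm_nonneg z) hz
    exact mul_le_mul (ih _ hz') (h z hz) (norm_nonneg _) (pow_nonneg h0 s)

/-! ### Taylor coefficients of polynomials -/

lemma coef_poly (p : ℂ[X]) (n : ℕ) : coef (fun z => p.eval z) n = p.coeff n := by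
  have h1 : ∀ (n : ℕ), iteratedDeriv n (fun z => p.eval z) = fun z => (derivative^[n] p).eval z := by
    intro n
    induction n with
    | zero => simp
    | succ n ih =>
      rw [iteratedDeriv_succ, ih, Function.iterate_succ_apply']
      funext z
      exact Polynomial.deriv _
  unfold coef
  rw [h1]
  have h2 : (derivative^[n] p).eval 0 = (n.factorial : ℂ) * p.coeff n := by
    rw [← coeff_zero_eq_eval_zero, coeff_iterate_derivative, zero_add, Nat.descFactorial_self,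
      nsmul_eq_mul]
  have hn : ((n.factorial : ℕ) : ℂ) ≠ 0 := by exact_mod_cast n.factorial_ne_zero
  simp only [h2]
  field_simp

lemma wNorm_poly (p : ℂ[X]) : wNorm (fun z => p.eval z) = nrm p := by
  unfold wNorm nrm
  simp only [coef_poly]

/-! ### the lower bound -/

lemma lower {a : ℝ} (ha0 : 0 < a) (ha1 : a < 1) {K L : ℕ} {Q : ℂ[X]}
    (hQ : ∀ k ≤ K, nrm (Q ^ k) = 1) (hd : ∀ k < K, (Q ^ k).natDegree < L) (b : ℕ → ℂ)
    (hb : ∀ n, ∑ i ∈ range (n + 1),
      (Polynomial.C (a : ℂ) + Polynomial.C ((1 - a : ℝ) : ℂ) * Q * X ^ L).coeff i * b (n - i) =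
        if n = 0 then 1 else 0) :
    ∑ k ∈ range K, ENNReal.ofReal ((1 - a) / a) ^ k ≤
      ENNReal.ofReal a * ∑' n, ENNReal.ofReal ‖b n‖ := by
  have hac : (a : ℂ) ≠ 0 := by exact_mod_cast ha0.ne'
  set p : ℂ[X] := Polynomial.C (a : ℂ) + Polynomial.C ((1 - a : ℝ) : ℂ) * Q * X ^ L with hp
  set x : ℂ[X] := Polynomial.C (-(((1 - a) / a : ℝ) : ℂ)) * Q * X ^ L with hx
  have hpx : p = Polynomial.C (a : ℂ) * (1 - x) := by
    have : (a : ℂ) * -(((1 - a) / a : ℝ) : ℂ) = -((1 - a : ℝ) : ℂ) := by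
      push_cast
      field_simp
    rw [hp, hx, mul_sub, mul_one, ← mul_assoc, ← mul_assoc, ← Polynomial.C_mul, this,
      Polynomial.C_neg]
    ring
  set B : PowerSeries ℂ := PowerSeries.mk b with hB
  have h1 : (p : PowerSeries ℂ) * B = 1 := by
    ext n
    rw [PowerSeries.coeff_mul, Finset.Nat.sum_antidiagonal_eq_sum_range_succ_mk,
      PowerSeries.coeff_one]
    simp only [Polynomial.coeff_coe, hB, PowerSeries.coeff_mk]
    exact hb n
  set T : ℂ[X] := ∑ k ∈ range K, x ^ k with hT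
  have h2 : (1 - x) * T = 1 - x ^ K := by
    rw [hT]
    exact mul_neg_geom_sum x K
  have h3 : (T : PowerSeries ℂ) = PowerSeries.C (a : ℂ) * B -
      PowerSeries.C (a : ℂ) * B * (x : PowerSeries ℂ) ^ K := by
    have h4 : (T : PowerSeries ℂ) = ((p : PowerSeries ℂ) * B) * T := by rw [h1, one_mul]
    have h5 : (p : PowerSeries ℂ) * (T : PowerSeries ℂ) =
        PowerSeries.C (a : ℂ) * (1 - (x : PowerSeries ℂ) ^ K) := by
      rw [← Polynomial.coe_mul, hpx, mul_assoc, h2, Polynomial.coe_mul, Polynomial.coe_C,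
        Polynomial.coe_sub, Polynomial.coe_pow, Polynomial.coe_one]
    calc (T : PowerSeries ℂ) = ((p : PowerSeries ℂ) * B) * T := h4
      _ = ((p : PowerSeries ℂ) * T) * B := by ring
      _ = _ := by rw [h5]; ring
  have hxK : x ^ K = (Polynomial.C (-(((1 - a) / a : ℝ) : ℂ)) * Q) ^ K * X ^ (L * K) := by
    rw [hx, mul_pow, ← pow_mul]
  have h4 : ∀ n < L * K, T.coeff n = (a : ℂ) * b n := by
    intro n hn
    have h5 := congrArg (PowerSeries.coeff n) h3
    rw [Polynomial.coeff_coe, map_sub, PowerSeries.coeff_C_mul] at h5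
    rw [h5, hB, PowerSeries.coeff_mk]
    have h6 : PowerSeries.C (a : ℂ) * PowerSeries.mk b * (x : PowerSeries ℂ) ^ K =
        (PowerSeries.C (a : ℂ) * PowerSeries.mk b *
          (((Polynomial.C (-(((1 - a) / a : ℝ) : ℂ)) * Q) ^ K : ℂ[X]) : PowerSeries ℂ)) *
          PowerSeries.X ^ (L * K) := by
      rw [← Polynomial.coe_pow, hxK, Polynomial.coe_mul, Polynomial.coe_pow, Polynomial.coe_pow,
        Polynomial.coe_X]
      ring
    rw [h6, PowerSeries.coeff_mul_X_pow', if_neg (by omega), sub_zero]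
  have hTb : T = ∑ k ∈ range K,
      (Polynomial.C ((-(((1 - a) / a : ℝ) : ℂ)) ^ k) * Q ^ k) * X ^ (L * k) := by
    rw [hT]
    refine Finset.sum_congr rfl fun k _ => ?_
    rw [hx, mul_pow, mul_pow, ← pow_mul, Polynomial.C_pow]
  have hbl := block (A := fun k => Polynomial.C ((-(((1 - a) / a : ℝ) : ℂ)) ^ k) * Q ^ k) (m := L)
    K (by
      intro k hk n hn
      rw [coeff_C_mul, coeff_eq_zero_of_natDegree_lt ((hd k hk).trans_le hn), mul_zero])
  rw [← hTb] at hbl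
  have hr : 0 ≤ (1 - a) / a := div_nonneg (by linarith) ha0.le
  have h7 : ∑ k ∈ range K, ENNReal.ofReal ((1 - a) / a) ^ k = nrm T := by
    rw [hbl.2]
    refine Finset.sum_congr rfl fun k hk => ?_
    rw [nrm_C_mul, hQ k (by have := Finset.mem_range.1 hk; omega), mul_one, norm_pow, norm_neg,
      Complex.norm_real, Real.norm_of_nonneg hr, ENNReal.ofReal_pow hr]
  rw [h7, nrm_head hbl.1, ← ENNReal.tsum_mul_left]
  refine le_trans (le_of_eq ?_) (ENNReal.sum_le_tsum (range (L * K)))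
  refine Finset.sum_congr rfl fun n hn => ?_
  rw [h4 n (Finset.mem_range.1 hn), norm_mul, ENNReal.ofReal_mul (norm_nonneg _),
    Complex.norm_real, Real.norm_of_nonneg ha0.le]

lemma C_ge {δ a : ℝ} (h0 : 0 < δ) (hδ : δ < a) (ha1 : a < 1) (K : ℕ) (hK : 1 ≤ K) :
    ∑ k ∈ range K, ENNReal.ofReal ((1 - a) / a) ^ k ≤ ENNReal.ofReal a * C δ := by
  have ha0 : 0 < a := h0.trans hδ
  obtain ⟨ρ, hρ0, hρ1, hρ⟩ := exists_rho K
  obtain ⟨s, hs⟩ := exists_pow_lt_of_lt_one (sub_pos.2 hδ) hρ1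
  set L : ℕ := K * (F K s).natDegree + 1 with hL
  set p : ℂ[X] := Polynomial.C (a : ℂ) + Polynomial.C ((1 - a : ℝ) : ℂ) * F K s * X ^ L with hp
  have hlow : ∀ z ∈ Metric.ball (0 : ℂ) 1, δ ≤ ‖p.eval z‖ := by
    intro z hz
    have hz1 : ‖z‖ ≤ 1 := by
      rw [mem_ball_zero_iff] at hz
      exact hz.le
    have h1 : p.eval z = (a : ℂ) + ((1 - a : ℝ) : ℂ) * (F K s).eval z * z ^ L := by
      simp [hp]
    have h2 : ‖((1 - a : ℝ) : ℂ) * (F K s).eval z * z ^ L‖ ≤ a - δ := by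
      rw [norm_mul, norm_mul, norm_pow, Complex.norm_real, Real.norm_of_nonneg (by linarith)]
      have h3 := F_le K hρ0 hρ s z hz1
      have h4 : ‖z‖ ^ L ≤ 1 := pow_le_one₀ (norm_nonneg z) hz1
      calc (1 - a) * ‖(F K s).eval z‖ * ‖z‖ ^ L ≤ 1 * ρ ^ s * 1 := by
            refine mul_le_mul (mul_le_mul (by linarith) h3 (norm_nonneg _) zero_le_one) h4
              (by positivity) (by positivity)
        _ ≤ a - δ := by linarith
    have h5 : ‖(a : ℂ)‖ = a := by rw [Complex.norm_real, Real.norm_of_nonneg ha0.le]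
    have h6 := norm_sub_le (p.eval z) (((1 - a : ℝ) : ℂ) * (F K s).eval z * z ^ L)
    have h7 : p.eval z - (((1 - a : ℝ) : ℂ) * (F K s).eval z * z ^ L) = (a : ℂ) := by
      rw [h1]
      ring
    rw [h7, h5] at h6
    linarith
  have hne : ∀ z ∈ Metric.ball (0 : ℂ) 1, p.eval z ≠ 0 := by
    intro z hz h
    have := hlow z hz
    rw [h, norm_zero] at this
    linarith
  have hmem : (fun z => p.eval z) ∈ Fam δ := by
    refine ⟨p.differentiable.differentiableOn, ?_, hlow⟩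
    rw [wNorm_poly, hp, nrm_add, nrm_C, nrm_C_mul]
    · have h1 := nrm_F_pow K 1 s hK
      rw [pow_one] at h1
      rw [h1, mul_one, Complex.norm_real, Complex.norm_real, Real.norm_of_nonneg ha0.le,
        Real.norm_of_nonneg (by linarith), ← ENNReal.ofReal_add ha0.le (by linarith)]
      simp
    · intro n hn
      rw [coeff_C, if_neg (by omega)]
  have hc := conv p.differentiable.differentiableOn hne
  simp only [coef_poly] at hc
  have hlo := lower ha0 ha1 (K := K) (L := L) (Q := F K s)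
    (fun k hk => nrm_F_pow K k s hk) (by
      intro k hk
      calc (F K s ^ k).natDegree ≤ k * (F K s).natDegree := natDegree_pow_le
        _ ≤ K * (F K s).natDegree := Nat.mul_le_mul_right _ hk.le
        _ < L := by omega) _ hc
  refine hlo.trans (mul_le_mul_right ?_ _)
  exact le_iSup₂ (f := fun f (_ : f ∈ Fam δ) => wNorm (fun z => (f z)⁻¹)) _ hmem

lemma C_ge' {δ a : ℝ} (h0 : 0 < δ) (hδ : δ < a) (ha1 : a < 1) (ha2 : 1 / 2 < a) :
    ENNReal.ofReal (1 / (2 * a - 1)) ≤ C δ := by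
  have ha0 : 0 < a := h0.trans hδ
  have h1 : ∑' k, ENNReal.ofReal ((1 - a) / a) ^ k ≤ ENNReal.ofReal a * C δ := by
    refine ENNReal.tsum_le_of_sum_range_le fun K => ?_
    refine le_trans ?_ (C_ge h0 hδ ha1 (K + 1) (by omega))
    exact Finset.sum_le_sum_of_subset (Finset.range_mono (by omega))
  rw [ENNReal.tsum_geometric] at h1
  have h2 : (1 : ℝ≥0∞) - ENNReal.ofReal ((1 - a) / a) = ENNReal.ofReal ((2 * a - 1) / a) := by
    rw [← ENNReal.ofReal_one, ← ENNReal.ofReal_sub _ (div_nonneg (by linarith) ha0.le)]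
    congr 1
    field_simp
    ring
  rw [h2] at h1
  have hA : ENNReal.ofReal a ≠ 0 := by simpa using ha0
  have h3 : ENNReal.ofReal (1 / (2 * a - 1)) = (ENNReal.ofReal a)⁻¹ *
      (ENNReal.ofReal ((2 * a - 1) / a))⁻¹ := by
    rw [← ENNReal.ofReal_inv_of_pos ha0, ← ENNReal.ofReal_inv_of_pos (div_pos (by linarith) ha0),
      ← ENNReal.ofReal_mul (by positivity)]
    congr 1
    have : 2 * a - 1 ≠ 0 := by linarith
    field_simp
  rw [h3]
  calc (ENNReal.ofReal a)⁻¹ * (ENNReal.ofReal ((2 * a - 1) / a))⁻¹ ≤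
      (ENNReal.ofReal a)⁻¹ * (ENNReal.ofReal a * C δ) := by gcongr
    _ = C δ := by
      rw [← mul_assoc, ENNReal.inv_mul_cancel hA ENNReal.ofReal_ne_top, one_mul]

lemma C_top {δ : ℝ} (h0 : 0 < δ) (h1 : δ ≤ 1 / 2) : C δ = ⊤ := by
  refine ENNReal.eq_top_of_forall_nnreal_le fun r => ?_
  obtain ⟨n, hn⟩ := exists_nat_ge (r : ℝ)
  set a : ℝ := 1 / 2 + 1 / (2 * (n + 2)) with ha
  have hn0 : (0 : ℝ) ≤ n := n.cast_nonneg
  have h2 : 0 < 1 / (2 * ((n : ℝ) + 2)) := by positivity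
  have h3 : 1 / (2 * ((n : ℝ) + 2)) < 1 / 2 := by
    rw [div_lt_div_iff₀ (by positivity) (by norm_num)]
    linarith
  have h4 := C_ge' (a := a) h0 (by linarith) (by linarith) (by linarith)
  refine le_trans ?_ h4
  rw [← ENNReal.ofReal_coe_nnreal]
  refine ENNReal.ofReal_le_ofReal ?_
  have h5 : 1 / (2 * a - 1) = n + 2 := by
    rw [ha]
    field_simp
    ring
  rw [h5]
  linarith

lemma one_mem : (fun _ => (1 : ℂ)) ∈ Fam 1 := by
  refine ⟨differentiableOn_const _, ?_, fun z _ => by simp⟩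
  have h := wNorm_poly (1 : ℂ[X])
  simp only [eval_one] at h
  rw [h, ← Polynomial.C_1, nrm_C]
  simp

lemma C_eq {δ : ℝ} (h0 : 1 / 2 < δ) (h1 : δ ≤ 1) : C δ = ENNReal.ofReal (1 / (2 * δ - 1)) := by
  refine le_antisymm ?_ ?_
  · refine iSup₂_le fun f hf => ?_
    obtain ⟨hd, hn, hl⟩ := hf
    have hne : ∀ z ∈ Metric.ball (0 : ℂ) 1, f z ≠ 0 := by
      intro z hz h
      have := hl z hz
      rw [h, norm_zero] at this
      linarith
    have hc : δ ≤ ‖coef f 0‖ := by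
      have : coef f 0 = f 0 := by simp [coef]
      rw [this]
      exact hl 0 (Metric.mem_ball_self one_pos)
    refine (upper (conv hd hne) hn (by linarith)).trans (ENNReal.ofReal_le_ofReal ?_)
    exact one_div_le_one_div_of_le (by linarith) (by linarith)
  · rcases h1.lt_or_eq with h1 | rfl
    · have ht : Filter.Tendsto (fun a : ℝ => ENNReal.ofReal (1 / (2 * a - 1))) (𝓝[>] δ)
          (𝓝 (ENNReal.ofReal (1 / (2 * δ - 1)))) := by
        refine (ENNReal.tendsto_ofReal ?_).mono_left nhdsWithin_le_nhds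
        refine ContinuousAt.div continuousAt_const (by fun_prop) (by linarith)
      refine le_of_tendsto ht ?_
      filter_upwards [Ioo_mem_nhdsGT h1] with a ha
      exact C_ge' (by linarith) ha.1 ha.2 (by linarith [ha.1])
    · refine le_trans (le_of_eq ?_) (le_iSup₂ (f := fun f (_ : f ∈ Fam 1) =>
        wNorm (fun z => (f z)⁻¹)) _ one_mem)
      have h := one_mem.2.1
      simp only [inv_one]
      rw [h]
      norm_num

/-- `C δ = ∞` for `0 < δ ≤ 1/2`, `C δ = 1 / (2 δ - 1)` for `1/2 < δ ≤ 1`, and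
`δ₀ = inf {δ ∈ (0, 1] : C δ < ∞} = 1/2`. -/
theorem result :
    (∀ δ : ℝ, 0 < δ → δ ≤ 1 / 2 → C δ = ⊤) ∧
    (∀ δ : ℝ, 1 / 2 < δ → δ ≤ 1 → C δ = ENNReal.ofReal (1 / (2 * δ - 1))) ∧
    sInf {δ : ℝ | δ ∈ Set.Ioc (0 : ℝ) 1 ∧ C δ < ⊤} = 1 / 2 := by
  refine ⟨fun δ => C_top, fun δ => C_eq, ?_⟩
  have h : {δ : ℝ | δ ∈ Set.Ioc (0 : ℝ) 1 ∧ C δ < ⊤} = Set.Ioc (1 / 2) 1 := by
    ext δ
    constructor
    · rintro ⟨⟨h0, h1⟩, h2⟩
      refine ⟨?_, h1⟩
      by_contra h3
      rw [C_top h0 (not_lt.1 h3)] at h2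
      exact lt_irrefl _ h2
    · rintro ⟨h0, h1⟩
      refine ⟨⟨by linarith, h1⟩, ?_⟩
      rw [C_eq h0 h1]
      exact ENNReal.ofReal_lt_top
  rw [h, csInf_Ioc (by norm_num)]

end

end Pool.Agent.Results.MP_de3d06_an.NormControl
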